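import Pool.Agent.K3h75.ND.Stm

/-! Bricks GEN and DF of the run ND (helper75). -/

set_option autoImplicit false

open scoped Pointwise

namespace Pool.Agent.K3h34.ND

open MvPolynomial Pool.Agent.H918R2.Quad Pool.Agent.TH214.RM Pool.Agent.K3h75.ND
open Pool.Agent.H945R2.D.GD1aux (mem_range_pow exists_coord)

theorem U_prod {F κ : Type} [Field F] {𝒪 : Subring F} [Fintype κ] (a : κ → F)
    (h : ∀ k, U 𝒪 (a k)) : U 𝒪 (∏ k, a k) := by
  classical
  have : ∀ s : Finset κ, U 𝒪 (∏ k ∈ s, a k) := by
    intro s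
    induction s using Finset.induction_on with
    | empty => simpa using U_one
    | insert b s hb ih => rw [Finset.prod_insert hb]; exact (h b).mul ih
  exact this _

theorem t_GEN : S_GEN := by
  classical
  intro R F _ _ _ 𝒪 hloc hR κ _ Φ f hf hfG hG
  obtain ⟨p, hp, hU⟩ := exists_U_gen hloc hR _ f hf hG hfG
  obtain ⟨g, hg, rfl⟩ := Set.mem_fintype_prod _ _ |>.1 hp
  have hne : ∏ k, g k ≠ 0 := by
    intro h
    rw [h, zero_div] at hU
    exact not_U_zero hU
  have hk : ∀ k, g k ≠ 0 := fun k h => hne (Finset.prod_eq_zero (Finset.mem_univ k) h)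
  have hUf : U 𝒪 (f / ∏ k, g k) := by
    have := hU.inv
    rwa [inv_div] at this
  refine ⟨g, fun k => ⟨hg k, hk k⟩, fun k h hh => ?_, hUf⟩
  have h1 : (∏ i, Function.update g k h i) / f ∈ 𝒪 := by
    apply hG
    rw [Set.mem_fintype_prod]
    refine ⟨Function.update g k h, fun i => ?_, rfl⟩
    by_cases hi : i = k
    · subst hi
      rw [Function.update_self]
      exact hh
    · rw [Function.update_of_ne hi]
      exact hg i
  have h2 : (∏ i, Function.update g k h i) = (∏ i, g i) * (h / g k) := by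
    rw [← Finset.mul_prod_erase Finset.univ g (Finset.mem_univ k),
      ← Finset.mul_prod_erase Finset.univ (Function.update g k h) (Finset.mem_univ k)]
    have h3 : ∏ i ∈ Finset.univ.erase k, Function.update g k h i =
        ∏ i ∈ Finset.univ.erase k, g i := by
      refine Finset.prod_congr rfl fun i hi => ?_
      rw [Function.update_of_ne (Finset.ne_of_mem_erase hi)]
    rw [h3, Function.update_self]
    have := hk k
    field_simp
  have h4 : h / g k = (∏ i, Function.update g k h i) / f * (f / ∏ k, g k) := by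
    rw [h2]
    field_simp
  rw [h4]
  exact 𝒪.mul_mem h1 hUf.2.1

/-- the values of the partial derivatives -/
theorem aeval_pd {R F ι : Type} [CommRing R] [Field F] [Algebra R F] (x : ι → F)
    (H : MvPolynomial ι R) (d : ℕ) (hH : H.IsHomogeneous d) (s : ι) (hs : x s ≠ 0) (l : ι) :
    aeval x (pderiv l H) = aeval (fun i => x i / x s) (pderiv l H) * x s ^ (d - 1) := by
  have h1 := aeval_scale (fun i => x i / x s) (x s) (d - 1) (pderiv l H) hH.pderiv
  rw [← h1]
  congr 2
  funext i
  field_simp

theorem pow_mem_range {F ι : Type} [Field F] (x : ι → F) (s : ι) (D : ℕ) :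
    x s ^ D ∈ Set.range x ^ D :=
  (mem_range_pow x D _).2 ⟨fun _ => s, by simp⟩

theorem range_div {F ι : Type} [Field F] {𝒪 : Subring F} (x : ι → F) (s : ι) (hs : x s ≠ 0)
    (hx : ∀ i, x i / x s ∈ 𝒪) (D : ℕ) (y : F) (hy : y ∈ Set.range x ^ D) :
    y / x s ^ D ∈ 𝒪 := by
  obtain ⟨φ, rfl⟩ := (mem_range_pow x D _).1 hy
  have h1 : (∏ i, x (φ i)) / x s ^ D = ∏ i, (x (φ i) / x s) := by
    rw [Finset.prod_div_distrib, Finset.prod_const, Finset.card_univ, Fintype.card_fin]
  rw [h1]
  exact Subring.prod_mem _ fun i _ => hx _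

theorem range_map {F ι R W : Type} [Field F] [CommRing R] [Algebra R F] [CommRing W] [Algebra R W]
    (eW : W →ₐ[R] F) (x : ι → F) (s : ι) (hs : x s ≠ 0)
    (hx : ∀ i, ∃ w, x i / x s = eW w) (D : ℕ) (y : F) (hy : y ∈ Set.range x ^ D) :
    ∃ w, y = x s ^ D * eW w := by
  obtain ⟨φ, rfl⟩ := (mem_range_pow x D _).1 hy
  choose w hw using hx
  refine ⟨∏ i, w (φ i), ?_⟩
  rw [map_prod]
  have h1 : ∏ i, x (φ i) = ∏ i, (x s * eW (w (φ i))) :=
    Finset.prod_congr rfl fun i _ => by rw [← hw]; field_simp
  rw [h1, Finset.prod_mul_distrib, Finset.prod_const, Finset.card_univ, Fintype.card_fin]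

theorem t_DF : S_DF := by
  classical
  intro R F _ _ _ n 𝒪 hloc hR π hπ H d hd hH r x e he f hf hfG hG hloc2
  obtain ⟨g, hg, hgd, hU⟩ := t_GEN R F 𝒪 hloc hR (Option (Fin r)) (Psi π x H d e r) f hf hfG hG
  obtain ⟨s, hs, hx, hgn⟩ := exists_coord 𝒪 x e he (g none) (hgd none) (g none) (hg none).1
    (by rw [div_self (hg none).2]; exact U_one)
  have hπm : ∀ m : ℕ, algebraMap R F (π ^ m) ≠ 0 := fun m => by
    rw [map_pow]
    exact pow_ne_zero _ hπ
  have hsd : ∀ m : ℕ, x s ^ m ≠ 0 := fun m => pow_ne_zero _ hs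
  have hpd := aeval_pd x H d hH s hs
  -- members of `Psi`
  have hm1 : ∀ (j : Fin r) (l : Fin (n + 2)), aeval x (pderiv l H) ∈ Psi π x H d e r (some j) :=
    fun j l => Or.inl ⟨l, rfl⟩
  have hm2 : ∀ j : Fin r, algebraMap R F (π ^ (j.val + 1)) * x s ^ (d - 1) ∈
      Psi π x H d e r (some j) :=
    fun j => Or.inr ⟨_, pow_mem_range x s (d - 1), rfl⟩
  refine ⟨s, hs, hx, fun m hm => ?_, ?_⟩
  · have hgj := (hg (some ⟨m, hm⟩)).1
    have hgj0 := (hg (some ⟨m, hm⟩)).2
    have hgjd := hgd (some ⟨m, hm⟩)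
    rcases hgj with ⟨i, hi⟩ | ⟨y, hy, hi⟩
    · right
      simp only at hi
      rw [← hi] at hgjd hgj0
      have h0 : aeval (fun i => x i / x s) (pderiv i H) ≠ 0 := by
        intro h
        rw [hpd, h, zero_mul] at hgj0
        exact hgj0 rfl
      refine ⟨i, h0, fun l => ?_, ?_⟩
      · have h1 := hgjd _ (hm1 ⟨m, hm⟩ l)
        rw [hpd l, hpd i, mul_div_mul_right _ _ (hsd _)] at h1
        exact h1
      · have h1 := hgjd _ (hm2 ⟨m, hm⟩)
        rw [hpd i, mul_div_mul_right _ _ (hsd _)] at h1
        exact h1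
    · left
      simp only at hi
      intro l
      have h1 := hgjd _ (hm1 ⟨m, hm⟩ l)
      have h2 := range_div x s hs hx (d - 1) y hy
      have h3 : aeval (fun i => x i / x s) (pderiv l H) / algebraMap R F (π ^ (m + 1)) =
          aeval x (pderiv l H) / g (some ⟨m, hm⟩) * (y / x s ^ (d - 1)) := by
        have hy0 : y ≠ 0 := by
          rintro rfl
          rw [mul_zero] at hi
          exact hgj0 hi
        have := hπm (m + 1)
        have := hsd (d - 1)
        rw [hi, hpd l]
        field_simp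
      rw [h3]
      exact 𝒪.mul_mem h1 h2
  · intro W _ _ eW heW hxW ρ hρ0 hρ1 hρ2 hρ3
    let K : Option (Fin r) → F := fun k => k.elim (x s ^ e) fun j => ρ j * x s ^ (d - 1)
    have hK0 : ∀ k, K k ≠ 0 := by
      rintro (_ | j)
      · exact hsd e
      · exact mul_ne_zero (hρ0 j) (hsd _)
    have hKw : ∀ k, ∀ y ∈ Psi π x H d e r k, ∃ w, y = K k * eW w := by
      rintro (_ | j) y hy
      · exact range_map eW x s hs hxW e y hy
      · rcases hy with ⟨l, rfl⟩ | ⟨y', hy', rfl⟩
        · obtain ⟨w, hw⟩ := hρ1 j l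
          refine ⟨w, ?_⟩
          simp only [K, Option.elim_some]
          rw [hpd l, hw]
          ring
        · obtain ⟨w, hw⟩ := hρ2 j
          obtain ⟨w', hw'⟩ := range_map eW x s hs hxW (d - 1) y' hy'
          refine ⟨w * w', ?_⟩
          simp only [K, Option.elim_some]
          rw [hw', hw, map_mul]
          ring
    have hUK : ∀ k, U 𝒪 (g k / K k) := by
      rintro (_ | j)
      · exact hgn
      · have hin : g (some j) / K (some j) ∈ 𝒪 := by
          obtain ⟨w, hw⟩ := hKw (some j) _ (hg (some j)).1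
          rw [hw, mul_div_cancel_left₀ _ (hK0 _)]
          exact heW w
        refine ⟨div_ne_zero (hg _).2 (hK0 _), hin, ?_⟩
        rw [inv_div]
        have hg0 := (hg (some j)).2
        have hρj := hρ0 j
        have hsd1 := hsd (d - 1)
        rcases hρ3 j with ⟨l, hl⟩ | hl
        · have h1 := hgd (some j) _ (hm1 j l)
          have h2 := hl.2.2
          have h3 : K (some j) / g (some j) =
              (aeval (fun i => x i / x s) (pderiv l H) / ρ j)⁻¹ *
                (aeval x (pderiv l H) / g (some j)) := by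
            have h4 : aeval (fun i => x i / x s) (pderiv l H) ≠ 0 := by
              intro h
              rw [h, zero_div] at hl
              exact not_U_zero hl
            simp only [K, Option.elim_some]
            rw [hpd l, inv_div]
            field_simp
          rw [h3]
          exact 𝒪.mul_mem h2 h1
        · have h1 := hgd (some j) _ (hm2 j)
          have h2 := hl.2.2
          have h3 : K (some j) / g (some j) =
              (algebraMap R F (π ^ (j.val + 1)) / ρ j)⁻¹ *
                (algebraMap R F (π ^ (j.val + 1)) * x s ^ (d - 1) / g (some j)) := by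
            have h4 := hπm (j.val + 1)
            simp only [K, Option.elim_some]
            rw [inv_div]
            field_simp
          rw [h3]
          exact 𝒪.mul_mem h2 h1
    have hfh : U 𝒪 (f / ∏ k, K k) := by
      have h1 : f / ∏ k, K k = (f / ∏ k, g k) * ∏ k, (g k / K k) := by
        rw [Finset.prod_div_distrib]
        have h2 : ∏ k, g k ≠ 0 := Finset.prod_ne_zero_iff.2 fun k _ => (hg k).2
        field_simp
      rw [h1]
      exact hU.mul (U_prod _ hUK)
    intro y hy
    obtain ⟨a, b, h1, h2, h3⟩ := frac_of_chart eW heW (∏ k, Psi π x H d e r k) f (∏ k, K k)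
      (Finset.prod_ne_zero_iff.2 fun k _ => hK0 k) (fun y hy => by
        obtain ⟨v, hv, rfl⟩ := Set.mem_fintype_prod _ _ |>.1 hy
        choose w hw using fun k => hKw k (v k) (hv k)
        refine ⟨∏ k, w k, ?_⟩
        rw [map_prod, ← Finset.prod_mul_distrib]
        exact Finset.prod_congr rfl fun k _ => hw k) hfG hfh hloc2 y hy
    exact ⟨a, b, ⟨h1, heW b, h2⟩, h3⟩

end Pool.Agent.K3h34.ND
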